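import Pool.Agent.X225.Ef.ZZ

/-!
# A countable elementary free group which is not a union of a chain of finitely generated elementary
free groups

The language of groups `Lg` (symbols `·`, `⁻¹`, `1`), the structure of a group in it, and the notion
`ElemFree` of an elementary free group (a group with the same complete `Lg`-theory as the free group of
rank two) are defined in `Pool.Agent.X225.Ef.Grp`.
-/

namespace Pool.Agent.Results.MP_7bc825_lc.NotChain

open FirstOrder FirstOrder.Language Filter Pool.Agent.X225.Ef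

universe u

theorem exists_model : ∃ (G : Type) (_ : Lg.Structure G), Countable G ∧
    Lg.completeTheory G = Lg.completeTheory F2 ∧ ∃ t : Fin 2 → G,
      (eqn (FreeGroup.of 0 * FreeGroup.of 1 * (FreeGroup.of 0)⁻¹ * (FreeGroup.of 1)⁻¹ :
        FreeGroup (Fin 2))).Realize t ∧
      ∀ i j : ℤ, (eqn ((FreeGroup.of 0) ^ i * (FreeGroup.of 1) ^ j :
        FreeGroup (Fin 2))).Realize t → i = 0 ∧ j = 0 := by
  obtain ⟨S, hS1, hS2, hS3⟩ := exists_closed (L := Lg) (N := UP F2)
    (fun k a b h c => up_hom a b h c) (Set.range zz) (Set.countable_range _)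
  refine ⟨S, inferInstance, hS2, ?_, ?_⟩
  · have h1 : Lg.completeTheory S = Lg.completeTheory (UP F2) := S.elementarilyEquivalent
    rw [h1, up_elem]
  · let t : Fin 2 → S := fun i => ⟨zz i, hS1 ⟨i, rfl⟩⟩
    have ht : ∀ φ : Lg.Formula (Fin 2), φ.Realize t ↔ φ.Realize zz := by
      intro φ
      exact (S.subtype.map_formula φ t).symm
    refine ⟨t, (ht _).2 zz_comm, ?_⟩
    intro i j h
    exact zz_free i j ((ht _).1 h)

/-- **The answer to Q1 is negative.** There is a countable elementary free group `G` containing two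
elements `a`, `b` such that no finitely generated subgroup of `G` which is itself an elementary free
group contains both `a` and `b`. In particular `G` is not the union of a chain, nor even of a directed
family, of finitely generated subgroups each of which is an elementary free group. -/
theorem result :
    ∃ (G : Type) (_ : Group G), Countable G ∧ ElemFree G ∧
      (∃ a b : G, ∀ H : Subgroup G, H.FG → ElemFree H → ¬ (a ∈ H ∧ b ∈ H)) ∧
      ∀ (ι : Type u) (C : ι → Subgroup G), (∀ i j, ∃ k, C i ≤ C k ∧ C j ≤ C k) →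
        (∀ i, (C i).FG) → (∀ i, ElemFree (C i)) → ¬ ∀ g : G, ∃ i, g ∈ C i := by
  obtain ⟨G, inst, hG, hel, t, ht1, ht2⟩ := exists_model
  obtain ⟨g, rfl⟩ := exists_group hel
  have hmain : ∀ H : Subgroup G, H.FG → ElemFree H → ¬ (t 0 ∈ H ∧ t 1 ∈ H) := by
    rintro H hfg hH ⟨h0, h1⟩
    rw [realize_eqn] at ht1
    simp only [map_mul, map_inv, FreeGroup.lift_apply_of] at ht1
    have hcomm : t 0 * t 1 = t 1 * t 0 := by
      rw [mul_inv_eq_one, mul_inv_eq_iff_eq_mul] at ht1
      exact ht1
    obtain ⟨i, j, hij, hrel⟩ := no_zz (K := H) hH ((Group.fg_iff_subgroup_fg H).2 hfg)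
      (a := ⟨t 0, h0⟩) (b := ⟨t 1, h1⟩) (Subtype.ext hcomm)
    have h2 : t 0 ^ i * t 1 ^ j = 1 := by
      have := congrArg Subtype.val hrel
      simpa using this
    have h3 := ht2 i j (by
      rw [realize_eqn]
      simp only [map_mul, map_zpow, FreeGroup.lift_apply_of]
      exact h2)
    omega
  refine ⟨G, g, hG, hel, ⟨t 0, t 1, hmain⟩, ?_⟩
  intro ι C hdir hfg hef hcov
  obtain ⟨i, hi⟩ := hcov (t 0)
  obtain ⟨j, hj⟩ := hcov (t 1)
  obtain ⟨k, hk1, hk2⟩ := hdir i j
  exact hmain (C k) (hfg k) (hef k) ⟨hk1 hi, hk2 hj⟩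

end Pool.Agent.Results.MP_7bc825_lc.NotChain
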